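import Pool.Agent.Helper93.Thurston.Branched
import Pool.Agent.Helper90.ThExpand
import Pool.Agent.Helper90.ThSphere
import Pool.Agent.Helper90.ThNoSmooth

namespace Pool.Agent.Results.MP_89829e_an.NoSmoothModel

open Pool.Agent.Helper93.Thurston Filter Topology
open scoped Manifold ContDiff

/-- `g` is a `C^n` map of the sphere (`n = ∞` allowed). -/
def IsCn (n : WithTop ℕ∞) (g : S2 → S2) : Prop := ContMDiff (𝓡 2) (𝓡 2) n g

/-- `g` is a smooth expanding Thurston map of the standard sphere. -/
def IsSmoothExpandingThurstonMap (g : S2 → S2) : Prop :=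
  IsCn ∞ g ∧ IsThurstonMap g ∧ IsExpanding g

/-- `f` is topologically conjugate to the map `g` of the sphere. -/
def IsConjugateTo {S : Type} [TopologicalSpace S] (f : S → S) (g : S2 → S2) : Prop :=
  ∃ h : S ≃ₜ S2, ∀ x, h (f x) = g (h x)

lemma thurston_F : IsThurstonMap D.F :=
  ⟨D.nonempty_homeo, D.isBranchedCovering_F, D.two_le_topDegree_F, D.post_finite_F⟩

lemma expanding_F : IsExpanding D.F :=
  ⟨{p | D.W p = 0}, D.isJordanCurve_W, D.post_subset_eq, D.tendsto_mesh_F⟩

lemma no_model (g : S2 → S2) (hg : IsCn 1 g) : ¬ IsConjugateTo D.F g :=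
  no_C1_model D.F D.v1 D.F_vone D.not_injOn_vone D.exists_small_vone g hg

/-- Pilgrim's question has a negative answer: not every expanding Thurston map is topologically
conjugate to a smooth expanding Thurston map of the Riemann sphere. There is an expanding Thurston
map which is not topologically conjugate to any `C¹` map of the sphere at all. -/
theorem result :
    (¬ ∀ (S : Type) [MetricSpace S] (f : S → S), IsThurstonMap f → IsExpanding f →
      ∃ g, IsSmoothExpandingThurstonMap g ∧ IsConjugateTo f g) ∧
    ∃ (S : Type) (_ : MetricSpace S) (f : S → S), IsThurstonMap f ∧ IsExpanding f ∧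
      ∀ g, IsCn 1 g → ¬ IsConjugateTo f g := by
  refine ⟨fun h => ?_, D, inferInstance, D.F, thurston_F, expanding_F, no_model⟩
  obtain ⟨g, hg, hh⟩ := h D D.F thurston_F expanding_F
  exact no_model g (ContMDiff.of_le hg.1 (by norm_cast)) hh

end Pool.Agent.Results.MP_89829e_an.NoSmoothModel
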